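import Pool.Agent.Helper51.EA.Defs

/-!
# Project EA, blocks E4 (Mertens' first theorem) and E5 (`∑ 1/p` over a block of primes)
-/

set_option autoImplicit false

open Filter
open scoped ArithmeticFunction

namespace Pool.Agent.Helper84.EA

lemma log_fact (N : ℕ) : ∑ n ∈ Finset.range (N + 1), Real.log n = ∑ d ∈ Finset.range (N + 1), Λ d * ((N / d : ℕ) : ℝ) := by
  classical
  have e1 : ∀ n ∈ Finset.range (N + 1), Real.log n = ∑ d ∈ Finset.range (N + 1), if (n ≠ 0 ∧ d ∣ n) then Λ d else 0 := by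
    intro n hn
    rw [Finset.mem_range] at hn
    rw [← ArithmeticFunction.vonMangoldt_sum, ← Finset.sum_filter]
    apply Finset.sum_congr
    · ext d
      rw [Nat.mem_divisors, Finset.mem_filter, Finset.mem_range]
      constructor
      · rintro ⟨h1, h2⟩
        have := Nat.le_of_dvd (Nat.pos_of_ne_zero h2) h1
        exact ⟨by omega, h2, h1⟩
      · rintro ⟨_, h2, h1⟩
        exact ⟨h1, h2⟩
    · intro d _; rfl
  rw [Finset.sum_congr rfl e1, Finset.sum_comm]
  refine Finset.sum_congr rfl fun d _ => ?_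
  rw [← Finset.sum_filter, Finset.sum_const, nsmul_eq_mul, ← Nat.card_multiples' N d]
  ring

lemma log_fact_lower (N : ℕ) : N * Real.log N - N ≤ ∑ n ∈ Finset.range (N + 1), Real.log n := by
  induction N with
  | zero => simp
  | succ N ih =>
    rw [Finset.sum_range_succ]
    rcases Nat.eq_zero_or_pos N with rfl | hN
    · simp
    have hN0 : (0:ℝ) < N := by exact_mod_cast hN
    have h1 : Real.log ((N + 1 : ℕ) : ℝ) - Real.log N ≤ 1 / N := by
      rw [← Real.log_div (by positivity) hN0.ne']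
      have h2 := Real.log_le_sub_one_of_pos (show (0:ℝ) < ((N + 1 : ℕ) : ℝ) / N by positivity)
      have h3 : ((N + 1 : ℕ) : ℝ) / N - 1 = 1 / N := by push_cast; field_simp; ring
      linarith
    have h4 : N * (Real.log ((N + 1 : ℕ) : ℝ) - Real.log N) ≤ N * (1 / N) := by gcongr
    rw [mul_one_div_cancel hN0.ne'] at h4
    push_cast at h4 ih ⊢
    linarith

lemma log_fact_upper (N : ℕ) : ∑ n ∈ Finset.range (N + 1), Real.log n ≤ N * Real.log N := by
  rw [Finset.sum_range_succ']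
  simp only [Nat.cast_zero, Real.log_zero, add_zero]
  calc ∑ k ∈ Finset.range N, Real.log ((k + 1 : ℕ) : ℝ) ≤ ∑ k ∈ Finset.range N, Real.log N := by
        refine Finset.sum_le_sum fun k hk => ?_
        rw [Finset.mem_range] at hk
        apply Real.log_le_log (by positivity)
        exact_mod_cast hk
    _ = _ := by rw [Finset.sum_const, Finset.card_range, nsmul_eq_mul]

lemma psi_range (N : ℕ) : ∑ d ∈ Finset.range (N + 1), Λ d ≤ (Real.log 4 + 4) * N := by
  have h := Chebyshev.psi_le_const_mul_self (x := (N:ℝ)) (by positivity)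
  rw [Chebyshev.psi_eq_sum_Icc, Nat.floor_natCast] at h
  refine le_trans (le_of_eq ?_) h
  apply Finset.sum_congr _ (fun _ _ => rfl)
  ext d
  simp

lemma vM_lower {N : ℕ} (hN : 1 ≤ N) : Real.log N - 1 ≤ ∑ d ∈ Finset.range (N + 1), Λ d / d := by
  have hN0 : (0:ℝ) < N := by exact_mod_cast hN
  have h1 := log_fact_lower N
  rw [log_fact] at h1
  have h3 : ∑ d ∈ Finset.range (N + 1), Λ d * ((N / d : ℕ) : ℝ) ≤ ∑ d ∈ Finset.range (N + 1), (N:ℝ) * (Λ d / d) := by
    refine Finset.sum_le_sum fun d _ => ?_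
    have h9 := @ArithmeticFunction.vonMangoldt_nonneg d
    have h10 : ((N / d : ℕ) : ℝ) ≤ (N:ℝ) / d := Nat.cast_div_le
    calc Λ d * ((N / d : ℕ) : ℝ) ≤ Λ d * ((N:ℝ) / d) := by gcongr
      _ = _ := by ring
  rw [← Finset.mul_sum] at h3
  have h4 : N * (Real.log N - 1) ≤ N * ∑ d ∈ Finset.range (N + 1), Λ d / d := by linarith
  exact le_of_mul_le_mul_left h4 hN0

lemma vM_upper {N : ℕ} (hN : 1 ≤ N) : ∑ d ∈ Finset.range (N + 1), Λ d / d ≤ Real.log N + (Real.log 4 + 4) := by
  have hN0 : (0:ℝ) < N := by exact_mod_cast hN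
  have h1 := log_fact_upper N
  rw [log_fact] at h1
  have h3 : ∑ d ∈ Finset.range (N + 1), (N:ℝ) * (Λ d / d) ≤ ∑ d ∈ Finset.range (N + 1), (Λ d * ((N / d : ℕ) : ℝ) + Λ d) := by
    refine Finset.sum_le_sum fun d _ => ?_
    have h9 := @ArithmeticFunction.vonMangoldt_nonneg d
    rcases Nat.eq_zero_or_pos d with rfl | hd
    · simp
    have hd0 : (0:ℝ) < d := by exact_mod_cast hd
    have h10 : (N:ℝ) / d ≤ ((N / d : ℕ) : ℝ) + 1 := by
      rw [div_le_iff₀ hd0]
      have h6 : N < d * (N / d) + d := by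
        have := Nat.div_add_mod N d
        have := Nat.mod_lt N hd
        omega
      have h8 : (N:ℝ) < d * ((N / d : ℕ) : ℝ) + d := by exact_mod_cast h6
      linarith
    calc (N:ℝ) * (Λ d / d) = Λ d * ((N:ℝ) / d) := by ring
      _ ≤ Λ d * (((N / d : ℕ) : ℝ) + 1) := by gcongr
      _ = _ := by ring
  rw [← Finset.mul_sum, Finset.sum_add_distrib] at h3
  have h4 := psi_range N
  have h5 : N * ∑ d ∈ Finset.range (N + 1), Λ d / d ≤ N * (Real.log N + (Real.log 4 + 4)) := by linarith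
  exact le_of_mul_le_mul_left h5 hN0


end Pool.Agent.Helper84.EA

namespace Pool.Agent.Helper51.EA

open Finset Pool.Agent.Helper5.RM

/-- E4. Mertens' first theorem. -/
theorem mert1 : ∃ C : ℝ, 0 < C ∧ ∀ x : ℕ, 1 ≤ x → |∑ p ∈ PP x, Real.log p / p - Real.log x| ≤ C := by
  have hsum := ArithmeticFunction.vonMangoldt.summable_residueClass_non_primes_div (q := 1) 0
  set NP : ℝ := ∑' n : ℕ, (if n.Prime then 0 else
    ArithmeticFunction.vonMangoldt.residueClass (0 : ZMod 1) n) / n with hNP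
  have hres : ∀ n : ℕ, ArithmeticFunction.vonMangoldt.residueClass (0 : ZMod 1) n = Λ n := by
    intro n
    have h1 : n ∈ {n : ℕ | (n : ZMod 1) = 0} := Subsingleton.elim _ _
    exact Set.indicator_of_mem h1 _
  have hterm : ∀ n : ℕ, 0 ≤ (if n.Prime then 0 else
      ArithmeticFunction.vonMangoldt.residueClass (0 : ZMod 1) n) / (n : ℝ) := by
    intro n
    rw [hres]
    have := @ArithmeticFunction.vonMangoldt_nonneg n
    split_ifs <;> positivity
  have hnp : ∀ s : Finset ℕ, ∑ n ∈ s, (if n.Prime then 0 else Λ n) / (n : ℝ) ≤ NP := by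
    intro s
    have h1 := hsum.sum_le_tsum s fun n _ => hterm n
    simp only [hres] at h1
    rw [hNP]
    simp only [hres]
    exact h1
  have hnp0 : ∀ s : Finset ℕ, 0 ≤ ∑ n ∈ s, (if n.Prime then 0 else Λ n) / (n : ℝ) := by
    intro s
    refine Finset.sum_nonneg fun n _ => ?_
    have := @ArithmeticFunction.vonMangoldt_nonneg n
    split_ifs <;> positivity
  have hNP0 : 0 ≤ NP := by simpa using hnp ∅
  refine ⟨NP + 6, by positivity, fun x hx => ?_⟩
  have e1 : ∑ p ∈ PP x, Real.log p / p =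
      ∑ d ∈ Finset.range (x + 1), Λ d / d - ∑ n ∈ Finset.range (x + 1), (if n.Prime then 0 else Λ n) / (n : ℝ) := by
    rw [← Finset.sum_sub_distrib]
    have h1 : PP x = (Finset.range (x + 1)).filter Nat.Prime := by
      ext p
      simp only [PP, Finset.mem_filter, Finset.mem_Icc, Finset.mem_range]
      constructor
      · rintro ⟨⟨h1, h2⟩, h3⟩
        exact ⟨by omega, h3⟩
      · rintro ⟨h1, h3⟩
        exact ⟨⟨h3.one_lt.le, by omega⟩, h3⟩
    rw [h1, Finset.sum_filter]
    refine Finset.sum_congr rfl fun n _ => ?_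
    by_cases hp : n.Prime
    · rw [if_pos hp, if_pos hp, ArithmeticFunction.vonMangoldt_apply_prime hp]
      simp
    · rw [if_neg hp, if_neg hp, sub_self]
  rw [e1]
  have h1 := Pool.Agent.Helper84.EA.vM_lower hx
  have h2 := Pool.Agent.Helper84.EA.vM_upper hx
  have h3 := hnp (Finset.range (x + 1))
  have h4 := hnp0 (Finset.range (x + 1))
  have h5 : Real.log 4 ≤ 2 := by
    have : Real.log 4 = 2 * Real.log 2 := by
      rw [show (4:ℝ) = 2 ^ 2 by norm_num, Real.log_pow]; norm_num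
    have := Real.log_two_lt_d9
    linarith
  rw [abs_le]
  constructor <;> linarith

/-- E5. -/
theorem pb_inv : ∃ C : ℝ, 0 < C ∧ ∀ y y' : ℕ, 2 ≤ y → y ≤ y' →
    ∑ p ∈ Pb y y', (1 : ℝ) / p ≤ (Real.log ((y' : ℝ) / y) + C) / Real.log y := by
  obtain ⟨C, hC, hM⟩ := mert1
  refine ⟨2 * C, by positivity, fun y y' hy hyy => ?_⟩
  have hy0 : (0 : ℝ) < y := by exact_mod_cast (by omega : 0 < y)
  have hy1 : (1 : ℝ) < y := by exact_mod_cast (by omega : 1 < y)
  have hy'0 : (0 : ℝ) < y' := by exact_mod_cast (by omega : 0 < y')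
  have hL : 0 < Real.log y := Real.log_pos hy1
  rw [le_div_iff₀ hL, Finset.sum_mul]
  have h1 : ∑ p ∈ Pb y y', (1 : ℝ) / p * Real.log y ≤ ∑ p ∈ Pb y y', Real.log p / p := by
    refine Finset.sum_le_sum fun p hp => ?_
    have h2 : y < p := (Finset.mem_Ioc.1 (Finset.mem_filter.1 hp).1).1
    have h3 : (y : ℝ) ≤ p := by exact_mod_cast h2.le
    have h4 : (0 : ℝ) < p := hy0.trans_le h3
    rw [one_div, inv_mul_eq_div]
    gcongr
  have h2 : ∑ p ∈ PP y', Real.log p / p = ∑ p ∈ PP y, Real.log p / p + ∑ p ∈ Pb y y', Real.log p / p := by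
    rw [← Finset.sum_union]
    · refine Finset.sum_congr ?_ fun _ _ => rfl
      ext p
      simp only [PP, Pb, Finset.mem_union, Finset.mem_filter, Finset.mem_Icc, Finset.mem_Ioc]
      constructor
      · rintro ⟨⟨h1, h2⟩, h3⟩
        by_cases h : p ≤ y
        · exact Or.inl ⟨⟨h1, h⟩, h3⟩
        · exact Or.inr ⟨⟨by omega, h2⟩, h3⟩
      · rintro (⟨⟨h1, h2⟩, h3⟩ | ⟨⟨h1, h2⟩, h3⟩)
        · exact ⟨⟨h1, by omega⟩, h3⟩
        · exact ⟨⟨h3.one_lt.le, h2⟩, h3⟩
    · rw [Finset.disjoint_left]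
      intro p hp hp'
      have h3 := (Finset.mem_Icc.1 (Finset.mem_filter.1 hp).1).2
      have h4 := (Finset.mem_Ioc.1 (Finset.mem_filter.1 hp').1).1
      omega
  have h3 := abs_le.1 (hM y' (by omega))
  have h4 := abs_le.1 (hM y (by omega))
  rw [Real.log_div hy'0.ne' hy0.ne']
  linarith [h3.2, h4.1]

end Pool.Agent.Helper51.EA
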