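import Pool.Agent.Helper51.EA.Defs
import Pool.Agent.Helper5.RS.Chain

/-!
# Project EA, block E12: the lower bound for all `N` in a dyadic block
-/

set_option autoImplicit false

namespace Pool.Agent.Helper84.EA

open Finset Pool.Agent.Helper5.RM Pool.Agent.Helper5.RS Pool.Agent.Helper51.EA

theorem tg_mono_mul {N M : ℕ} {η : ℝ} (hη : 0 ≤ η) (hM : 3 ≤ M) (h : (N : ℝ) ≤ (1 + η) * M) (hN : 1 ≤ N) :
    tg N ≤ (1 + η) * tg M := by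
  have hM0 : (3 : ℝ) ≤ M := by exact_mod_cast hM
  have hN0 : (0 : ℝ) < N := by exact_mod_cast hN
  have hL : 1 ≤ Real.log M := by
    rw [Real.le_log_iff_exp_le (by linarith)]
    linarith [Real.exp_one_lt_d9]
  have h1 : Real.log N ≤ (1 + η) * Real.log M := by
    have h2 : Real.log N ≤ Real.log ((1 + η) * M) := Real.log_le_log hN0 h
    rw [Real.log_mul (by positivity) (by positivity)] at h2
    have h3 : Real.log (1 + η) ≤ η := by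
      have := Real.log_le_sub_one_of_pos (x := 1 + η) (by positivity)
      linarith
    nlinarith
  have hLN : 0 ≤ Real.log N := Real.log_natCast_nonneg N
  rw [tg, tg, show (1 + η) = Real.sqrt ((1 + η) ^ 2) by rw [Real.sqrt_sq (by positivity)], ← Real.sqrt_mul (by positivity)]
  refine Real.sqrt_le_sqrt ?_
  have h4 : (N : ℝ) * Real.log N ≤ ((1 + η) * M) * ((1 + η) * Real.log M) := by gcongr
  calc 6 / Real.pi ^ 2 * ((N : ℝ) * Real.log N) ≤ 6 / Real.pi ^ 2 * (((1 + η) * M) * ((1 + η) * Real.log M)) := by gcongr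
    _ = (1 + η) ^ 2 * (6 / Real.pi ^ 2 * (M * Real.log M)) := by ring

theorem tg_ge {N a : ℕ} (h : 2 ^ a ≤ N) : Real.sqrt (1 / 4 * a) * Real.sqrt (2 ^ a) ≤ tg N := by
  have h0 : (2 : ℝ) ^ a ≤ N := by exact_mod_cast h
  have h1 : (0 : ℝ) < 2 ^ a := by positivity
  rw [tg, ← Real.sqrt_mul (by positivity)]
  refine Real.sqrt_le_sqrt ?_
  have h2 : a * Real.log 2 ≤ Real.log N := by
    rw [← Real.log_pow]
    exact Real.log_le_log h1 h0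
  have h3 : (1 : ℝ) / 2 ≤ 6 / Real.pi ^ 2 := by
    rw [div_le_div_iff₀ (by norm_num) (by positivity)]
    nlinarith [Real.pi_lt_d2, Real.pi_pos]
  have h4 := Real.log_two_gt_d9
  have ha : (0 : ℝ) ≤ a := Nat.cast_nonneg a
  have h5 : (1 / 2 : ℝ) * a ≤ Real.log N := by nlinarith
  have hN0 : (0 : ℝ) ≤ N := Nat.cast_nonneg N
  calc 1 / 4 * (a : ℝ) * 2 ^ a = 1 / 2 * (2 ^ a * (1 / 2 * a)) := by ring
    _ ≤ 6 / Real.pi ^ 2 * (N * Real.log N) := by gcongr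

end Pool.Agent.Helper84.EA

namespace Pool.Agent.Helper51.EA

open Finset Pool.Agent.Helper5.RM Pool.Agent.Helper5.RS Filter Topology

/-- all grid points are bad -/
def Bd (δ : ℝ) (M : ℕ) (T : Finset ℕ) : Prop :=
  ∀ j : ℕ, j < 4 * M → ‖SN M T ((j : ℝ) / (4 * M : ℕ))‖ < (1 - δ) * tg M

/-- the chain fails at `x` -/
def Ch (a s0 : ℕ) (x : ℝ) (T : Finset ℕ) : Prop :=
  ∃ N : ℕ, 2 ^ a ≤ N ∧ N ≤ 2 ^ (a + 1) ∧ 6 * Real.sqrt (2 ^ a) < ‖SN N T x - SN (2 ^ s0 * (N / 2 ^ s0)) T x‖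

theorem Bd_restrict {δ : ℝ} {N M : ℕ} (h : M ≤ N) : pr (PP N) (Bd δ M) = pr (PP M) (Bd δ M) := by
  have hsub : PP M ⊆ PP N := by
    intro p hp
    unfold PP at hp ⊢
    rw [Finset.mem_filter, Finset.mem_Icc] at hp ⊢
    exact ⟨⟨hp.1.1, hp.1.2.trans h⟩, hp.2⟩
  refine pr_restrict hsub _ fun T _ => ?_
  unfold Bd
  simp only [SN_inter]

theorem Ch_le (k W a s0 : ℕ) (x : ℝ) (hk : 4 ≤ k) (hW : (2 * k - 1) ^ k ≤ W) (hs : s0 ≤ a) :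
    pr (PP (2 ^ (a + 1))) (Ch a s0 x) ≤ 2 * LL (2 ^ (a + 1)) ^ W * ((2 : ℝ) ^ s0 / 2 ^ a) ^ (k - 1) :=
  chain k W a s0 _ x hk hW hs le_rfl

/-- E12 from E11. -/
theorem low_block_of (hone : ∀ δ : ℝ, 0 < δ → ∃ (c : ℝ) (N0 : ℕ), 0 < c ∧ ∀ N : ℕ, N0 ≤ N →
    pr (PP N) (fun T => ∀ j < 4 * N, ‖SN N T ((j : ℝ) / (4 * N : ℕ))‖ < (1 - δ) * tg N) ≤ (N : ℝ) ^ (-c))
    (δ : ℝ) (hδ : 0 < δ) : ∃ (c : ℝ) (a0 : ℕ), 0 < c ∧ ∀ a : ℕ, a0 ≤ a →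
    pr (PP (2 ^ (a + 1))) (fun T => ∃ N : ℕ, 2 ^ a ≤ N ∧ N ≤ 2 ^ (a + 1) ∧ ∀ x : ℝ, ‖SN N T x‖ < (1 - δ) * tg N) ≤
      ((2 : ℝ) ^ a) ^ (-c) := by
  classical
  have htg0 : ∀ N, 0 ≤ tg N := fun N => Real.sqrt_nonneg _
  rcases le_or_gt 1 δ with hδ1 | hδ1
  · refine ⟨1, 0, one_pos, fun a _ => ?_⟩
    rw [pr_false]
    · positivity
    · rintro T _ ⟨N, _, _, h⟩
      have h1 := h 0
      have h2 : (1 - δ) * tg N ≤ 0 := mul_nonpos_of_nonpos_of_nonneg (by linarith) (htg0 N)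
      have := norm_nonneg (SN N T 0)
      linarith
  obtain ⟨c, N0, hc, hN0⟩ := hone (δ / 2) (by positivity)
  set c1 := min c 1 with hc1
  have hc10 : 0 < c1 := lt_min hc one_pos
  have hc11 : c1 ≤ 1 := min_le_right _ _
  obtain ⟨k, hk4, hk⟩ : ∃ k : ℕ, 4 ≤ k ∧ 4 ≤ c1 / 2 * ((k - 1 : ℕ) : ℝ) := by
    refine ⟨⌈8 / c1⌉₊ + 4, by omega, ?_⟩
    have h1 := Nat.le_ceil (8 / c1)
    have h2 : ((⌈8 / c1⌉₊ + 4 - 1 : ℕ) : ℝ) = ⌈8 / c1⌉₊ + 3 := by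
      rw [show ⌈8 / c1⌉₊ + 4 - 1 = ⌈8 / c1⌉₊ + 3 by omega]
      push_cast; ring
    rw [h2]
    have h3 : c1 / 2 * (8 / c1) = 4 := by field_simp; norm_num
    have h4 : c1 / 2 * (8 / c1) ≤ c1 / 2 * (⌈8 / c1⌉₊ + 3) := by
      apply mul_le_mul_of_nonneg_left _ (by positivity)
      linarith
    linarith
  set W := (2 * k - 1) ^ k with hW
  -- asymptotic conditions
  have hz : Tendsto (fun a : ℕ => ((2 : ℝ) ^ a) ^ (-(c1 / 4))) atTop (𝓝 0) :=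
    (tendsto_rpow_neg_atTop (by positivity)).comp (tendsto_pow_atTop_atTop_of_one_lt (by norm_num))
  have hz2 : Tendsto (fun a : ℕ => ((2 : ℝ) ^ a) ^ (-(c1 / 2))) atTop (𝓝 0) :=
    (tendsto_rpow_neg_atTop (by positivity)).comp (tendsto_pow_atTop_atTop_of_one_lt (by norm_num))
  have hw : Tendsto (fun a : ℕ => ((a + 2 : ℕ) : ℝ) ^ W / 2 ^ (a + 2)) atTop (𝓝 0) :=
    (tendsto_pow_const_div_const_pow_of_one_lt W (by norm_num : (1 : ℝ) < 2)).comp (tendsto_add_atTop_nat 2)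
  have hsq : Tendsto (fun a : ℕ => Real.sqrt (1 / 4 * (a : ℝ))) atTop atTop :=
    Real.tendsto_sqrt_atTop.comp (Tendsto.const_mul_atTop (by norm_num) tendsto_natCast_atTop_atTop)
  have e1 := hz.eventually (gt_mem_nhds (show (0 : ℝ) < 1 / 4 by norm_num))
  have e2 := hz2.eventually (gt_mem_nhds (show (0 : ℝ) < δ / 8 by positivity))
  have e3 := hw.eventually (gt_mem_nhds (show (0 : ℝ) < 1 / (2 ^ 8 * 2 ^ k) by positivity))
  have e4 := hsq.eventually (eventually_ge_atTop (24 / δ))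
  obtain ⟨a0, ha0⟩ := (e1.and (e2.and (e3.and (e4.and (eventually_ge_atTop (N0 + 3)))))).exists_forall_of_atTop
  refine ⟨c1 / 4, a0, by positivity, fun a ha => ?_⟩
  obtain ⟨f1, f2, f3, f4, f5⟩ := ha0 a ha
  set X : ℝ := (2 : ℝ) ^ a with hX
  have hX0 : 0 < X := by positivity
  have hX1 : 1 ≤ X := one_le_pow₀ (by norm_num)
  set t := ⌊c1 / 2 * a⌋₊ with ht
  have ha0' : (0 : ℝ) ≤ a := Nat.cast_nonneg a
  have ht1 : (t : ℝ) ≤ c1 / 2 * a := Nat.floor_le (by positivity)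
  have ht2 : c1 / 2 * a < t + 1 := Nat.lt_floor_add_one _
  have hta : t ≤ a := by
    have : (t : ℝ) ≤ a := by nlinarith
    exact_mod_cast this
  have h2t1 : (2 : ℝ) ^ t ≤ X ^ (c1 / 2) := by
    rw [hX, ← Real.rpow_natCast, ← Real.rpow_natCast, ← Real.rpow_mul (by norm_num)]
    refine Real.rpow_le_rpow_of_exponent_le (by norm_num) ?_
    linarith
  have h2t2 : X ^ (c1 / 2) ≤ 2 * 2 ^ t := by
    have : (2 : ℝ) * 2 ^ t = 2 ^ ((t : ℝ) + 1) := by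
      rw [Real.rpow_add_one (by norm_num), Real.rpow_natCast]; ring
    rw [this, hX, ← Real.rpow_natCast 2 a, ← Real.rpow_mul (by norm_num)]
    refine Real.rpow_le_rpow_of_exponent_le (by norm_num) ?_
    linarith
  set s0 := a - t with hs0
  have hs0a : s0 + t = a := by omega
  have h2s : (2 : ℝ) ^ s0 * 2 ^ t = X := by rw [hX, ← pow_add, hs0a]
  have hinv : (2 : ℝ) ^ s0 / X ≤ 2 * X ^ (-(c1 / 2)) := by
    rw [div_le_iff₀ hX0, Real.rpow_neg hX0.le, ← h2s]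
    rw [h2s]
    have h3 : 0 < X ^ (c1 / 2) := by positivity
    have h4 : 2 ^ s0 * X ^ (c1 / 2) ≤ 2 * X := by
      calc 2 ^ s0 * X ^ (c1 / 2) ≤ 2 ^ s0 * (2 * 2 ^ t) := by gcongr
        _ = 2 * X := by rw [← h2s]; ring
    calc (2 : ℝ) ^ s0 = 2 ^ s0 * X ^ (c1 / 2) * (X ^ (c1 / 2))⁻¹ := by field_simp
      _ ≤ 2 * X * (X ^ (c1 / 2))⁻¹ := by gcongr
      _ = _ := by ring
  -- the event
  have key : pr (PP (2 ^ (a + 1))) (fun T => ∃ N : ℕ, 2 ^ a ≤ N ∧ N ≤ 2 ^ (a + 1) ∧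
      ∀ x : ℝ, ‖SN N T x‖ < (1 - δ) * tg N) ≤
      pr (PP (2 ^ (a + 1))) (fun T => ∃ m ∈ Icc (2 ^ t) (2 ^ (t + 1)), Bd (δ / 2) (2 ^ s0 * m) T) +
      pr (PP (2 ^ (a + 1))) (fun T => ∃ q ∈ Icc (2 ^ t) (2 ^ (t + 1)) ×ˢ range (4 * 2 ^ (a + 1)),
        Ch a s0 ((q.2 : ℝ) / (4 * (2 ^ s0 * q.1) : ℕ)) T) := by
    refine pr_le_add fun T _ hT => ?_
    obtain ⟨N, hN1, hN2, hN3⟩ := hT
    by_contra hcon
    rw [not_or, not_exists, not_exists] at hcon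
    obtain ⟨hc2, hc3⟩ := hcon
    have hm1 : 2 ^ t ≤ N / 2 ^ s0 := by
      rw [Nat.le_div_iff_mul_le (by positivity), ← pow_add, add_comm t s0, hs0a]
      exact hN1
    have hm2 : N / 2 ^ s0 ≤ 2 ^ (t + 1) := by
      have : N / 2 ^ s0 ≤ 2 ^ (a + 1) / 2 ^ s0 := Nat.div_le_div_right hN2
      refine this.trans (le_of_eq ?_)
      rw [Nat.pow_div (by omega) (by norm_num)]
      congr 1
      omega
    set m := N / 2 ^ s0 with hm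
    have hmI : m ∈ Icc (2 ^ t) (2 ^ (t + 1)) := Finset.mem_Icc.2 ⟨hm1, hm2⟩
    have hc4 : ¬ Bd (δ / 2) (2 ^ s0 * m) T := fun h => hc2 m ⟨hmI, h⟩
    unfold Bd at hc4
    push Not at hc4
    obtain ⟨j, hj, hj2⟩ := hc4
    have hj3 : j < 4 * 2 ^ (a + 1) := by
      refine hj.trans_le (Nat.mul_le_mul_left 4 ?_)
      calc 2 ^ s0 * m ≤ 2 ^ s0 * 2 ^ (t + 1) := Nat.mul_le_mul_left _ hm2
        _ = 2 ^ (a + 1) := by rw [← pow_add]; congr 1; omega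
    have h1 : ‖SN N T ((j : ℝ) / (4 * (2 ^ s0 * m) : ℕ)) - SN (2 ^ s0 * m) T ((j : ℝ) / (4 * (2 ^ s0 * m) : ℕ))‖ ≤
        6 * Real.sqrt (2 ^ a) := by
      by_contra hcon2
      push Not at hcon2
      exact hc3 (m, j) ⟨Finset.mem_product.2 ⟨hmI, Finset.mem_range.2 hj3⟩, N, hN1, hN2, hcon2⟩
    have h2 := hN3 ((j : ℝ) / (4 * (2 ^ s0 * m) : ℕ))
    have hM1 : 2 ^ a ≤ 2 ^ s0 * m := by
      calc 2 ^ a = 2 ^ s0 * 2 ^ t := by rw [← pow_add, hs0a]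
        _ ≤ 2 ^ s0 * m := Nat.mul_le_mul_left _ hm1
    have hM3 : 3 ≤ 2 ^ s0 * m := by
      have : 2 ^ 3 ≤ 2 ^ a := Nat.pow_le_pow_right (by norm_num) (by omega)
      omega
    have hNM : (N : ℝ) ≤ (1 + δ / 4) * (2 ^ s0 * m : ℕ) := by
      have h3 : N < 2 ^ s0 * m + 2 ^ s0 := by
        have := Nat.div_add_mod N (2 ^ s0)
        have h4 := Nat.mod_lt N (show 0 < 2 ^ s0 by positivity)
        rw [← hm] at this
        omega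
      have h4 : (N : ℝ) < (2 ^ s0 * m : ℕ) + 2 ^ s0 := by exact_mod_cast h3
      have h5 : (X : ℝ) ≤ (2 ^ s0 * m : ℕ) := by rw [hX]; exact_mod_cast hM1
      have h6 : (2 : ℝ) ^ s0 ≤ δ / 4 * X := by
        have := (div_le_iff₀ hX0).1 hinv
        have h7 : 2 * X ^ (-(c1 / 2)) ≤ δ / 4 := by linarith
        nlinarith
      nlinarith
    have hN1' : 1 ≤ N := le_trans (Nat.one_le_two_pow) hN1
    have h3 := Pool.Agent.Helper84.EA.tg_mono_mul (η := δ / 4) (by positivity) hM3 hNM hN1'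
    have h4 := Pool.Agent.Helper84.EA.tg_ge hM1
    have h5 : 6 * Real.sqrt (2 ^ a) ≤ δ / 4 * tg (2 ^ s0 * m) := by
      have h6 : 24 / δ * Real.sqrt (2 ^ a) ≤ tg (2 ^ s0 * m) := by
        refine le_trans ?_ h4
        gcongr
      calc 6 * Real.sqrt (2 ^ a) = δ / 4 * (24 / δ * Real.sqrt (2 ^ a)) := by field_simp; norm_num
        _ ≤ _ := by gcongr
    have h6 : ‖SN (2 ^ s0 * m) T ((j : ℝ) / (4 * (2 ^ s0 * m) : ℕ))‖ ≤
        ‖SN N T ((j : ℝ) / (4 * (2 ^ s0 * m) : ℕ))‖ +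
        ‖SN N T ((j : ℝ) / (4 * (2 ^ s0 * m) : ℕ)) - SN (2 ^ s0 * m) T ((j : ℝ) / (4 * (2 ^ s0 * m) : ℕ))‖ := by
      have := norm_sub_le (SN N T ((j : ℝ) / (4 * (2 ^ s0 * m) : ℕ)))
        (SN N T ((j : ℝ) / (4 * (2 ^ s0 * m) : ℕ)) - SN (2 ^ s0 * m) T ((j : ℝ) / (4 * (2 ^ s0 * m) : ℕ)))
      rwa [sub_sub_cancel] at this
    have h7 : (1 - δ) * tg N ≤ (1 - 3 * δ / 4) * tg (2 ^ s0 * m) := by
      have h8 : (1 - δ) * tg N ≤ (1 - δ) * ((1 + δ / 4) * tg (2 ^ s0 * m)) :=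
        mul_le_mul_of_nonneg_left h3 (by linarith)
      have h9 := htg0 (2 ^ s0 * m)
      have h10 : (1 - δ) * (1 + δ / 4) ≤ 1 - 3 * δ / 4 := by nlinarith
      calc (1 - δ) * tg N ≤ ((1 - δ) * (1 + δ / 4)) * tg (2 ^ s0 * m) := by rw [mul_assoc]; exact h8
        _ ≤ _ := by gcongr
    linarith
  refine key.trans ?_
  -- first part
  have hp1 : pr (PP (2 ^ (a + 1))) (fun T => ∃ m ∈ Icc (2 ^ t) (2 ^ (t + 1)), Bd (δ / 2) (2 ^ s0 * m) T) ≤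
      2 * X ^ (-(c1 / 2)) := by
    refine (pr_exists _ _ (fun m T => Bd (δ / 2) (2 ^ s0 * m) T)).trans ?_
    have h1 : ∀ m ∈ Icc (2 ^ t) (2 ^ (t + 1)), pr (PP (2 ^ (a + 1))) (fun T => Bd (δ / 2) (2 ^ s0 * m) T) ≤ X ^ (-c1) := by
      intro m hm
      obtain ⟨hm1, hm2⟩ := Finset.mem_Icc.1 hm
      have hM1 : 2 ^ a ≤ 2 ^ s0 * m := by
        calc 2 ^ a = 2 ^ s0 * 2 ^ t := by rw [← pow_add, hs0a]
          _ ≤ 2 ^ s0 * m := Nat.mul_le_mul_left _ hm1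
      have hM2 : 2 ^ s0 * m ≤ 2 ^ (a + 1) := by
        calc 2 ^ s0 * m ≤ 2 ^ s0 * 2 ^ (t + 1) := Nat.mul_le_mul_left _ hm2
          _ = 2 ^ (a + 1) := by rw [← pow_add]; congr 1; omega
      rw [show (fun T => Bd (δ / 2) (2 ^ s0 * m) T) = Bd (δ / 2) (2 ^ s0 * m) from rfl, Bd_restrict hM2]
      have hN0a : N0 ≤ 2 ^ s0 * m := by
        have : a < 2 ^ a := Nat.lt_two_pow_self
        omega
      refine (hN0 (2 ^ s0 * m) hN0a).trans ?_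
      have h5 : X ≤ ((2 ^ s0 * m : ℕ) : ℝ) := by rw [hX]; exact_mod_cast hM1
      have h6 : (((2 ^ s0 * m : ℕ) : ℝ)) ^ (-c) ≤ ((2 ^ s0 * m : ℕ) : ℝ) ^ (-c1) :=
        Real.rpow_le_rpow_of_exponent_le (hX1.trans h5) (by
          have := min_le_left c 1
          linarith)
      exact h6.trans (Real.rpow_le_rpow_of_nonpos hX0 h5 (by linarith))
    refine (Finset.sum_le_sum h1).trans ?_
    rw [Finset.sum_const, nsmul_eq_mul, Nat.card_Icc]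
    have h2 : ((2 ^ (t + 1) + 1 - 2 ^ t : ℕ) : ℝ) ≤ 2 * 2 ^ t := by
      have h3 : 2 ^ (t + 1) + 1 - 2 ^ t ≤ 2 * 2 ^ t := by
        have : 1 ≤ 2 ^ t := Nat.one_le_two_pow
        rw [pow_succ]
        omega
      exact_mod_cast h3
    calc ((2 ^ (t + 1) + 1 - 2 ^ t : ℕ) : ℝ) * X ^ (-c1) ≤ (2 * X ^ (c1 / 2)) * X ^ (-c1) := by
          gcongr
          linarith
      _ = 2 * X ^ (-(c1 / 2)) := by
          rw [mul_assoc, ← Real.rpow_add hX0]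
          congr 2
          ring
  have hp2 : pr (PP (2 ^ (a + 1))) (fun T => ∃ q ∈ Icc (2 ^ t) (2 ^ (t + 1)) ×ˢ range (4 * 2 ^ (a + 1)),
        Ch a s0 ((q.2 : ℝ) / (4 * (2 ^ s0 * q.1) : ℕ)) T) ≤
      2 * X * (8 * X) * (2 * ((a + 2 : ℕ) : ℝ) ^ W * (2 ^ k * X ^ (-(4 : ℝ)))) := by
    refine (pr_exists (PP (2 ^ (a + 1))) (Icc (2 ^ t) (2 ^ (t + 1)) ×ˢ range (4 * 2 ^ (a + 1)))
      (fun (q : ℕ × ℕ) T => Ch a s0 ((q.2 : ℝ) / (4 * (2 ^ s0 * q.1) : ℕ)) T)).trans ?_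
    have h1 : ∀ q ∈ Icc (2 ^ t) (2 ^ (t + 1)) ×ˢ range (4 * 2 ^ (a + 1)), pr (PP (2 ^ (a + 1)))
        (fun T => Ch a s0 ((q.2 : ℝ) / (4 * (2 ^ s0 * q.1) : ℕ)) T) ≤
        2 * ((a + 2 : ℕ) : ℝ) ^ W * (2 ^ k * X ^ (-(4 : ℝ))) := by
      intro q _
      refine (Ch_le k W a s0 _ hk4 (le_of_eq hW.symm) (by omega)).trans ?_
      have h2 : LL (2 ^ (a + 1)) ≤ ((a + 2 : ℕ) : ℝ) := by
        unfold LL
        push_cast
        rw [Real.log_pow]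
        have := Real.log_two_lt_d9
        push_cast
        nlinarith
      have h3 : 0 ≤ LL (2 ^ (a + 1)) := by
        unfold LL
        have := Real.log_natCast_nonneg (2 ^ (a + 1))
        linarith
      have h4 : ((2 : ℝ) ^ s0 / 2 ^ a) ^ (k - 1) ≤ 2 ^ k * X ^ (-(4 : ℝ)) := by
        have h5 : ((2 : ℝ) ^ s0 / 2 ^ a) ^ (k - 1) ≤ (2 * X ^ (-(c1 / 2))) ^ (k - 1) :=
          pow_le_pow_left₀ (by positivity) hinv _
        refine h5.trans ?_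
        rw [mul_pow, ← Real.rpow_natCast (X ^ (-(c1 / 2))), ← Real.rpow_mul hX0.le]
        have h6 : X ^ (-(c1 / 2) * ((k - 1 : ℕ) : ℝ)) ≤ X ^ (-(4 : ℝ)) :=
          Real.rpow_le_rpow_of_exponent_le hX1 (by linarith)
        have h7 : (2 : ℝ) ^ (k - 1) ≤ 2 ^ k := pow_le_pow_right₀ (by norm_num) (by omega)
        gcongr
      gcongr
    refine (Finset.sum_le_sum h1).trans ?_
    rw [Finset.sum_const, nsmul_eq_mul, Finset.card_product, Nat.card_Icc, Finset.card_range]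
    have h2 : (((2 ^ (t + 1) + 1 - 2 ^ t) * (4 * 2 ^ (a + 1)) : ℕ) : ℝ) ≤ 2 * X * (8 * X) := by
      have h3 : 2 ^ (t + 1) + 1 - 2 ^ t ≤ 2 * 2 ^ a := by
        have h4 : 1 ≤ 2 ^ t := Nat.one_le_two_pow
        have h5 : 2 ^ t ≤ 2 ^ a := Nat.pow_le_pow_right (by norm_num) hta
        rw [pow_succ]
        omega
      have h4 : (2 ^ (t + 1) + 1 - 2 ^ t) * (4 * 2 ^ (a + 1)) ≤ 2 * 2 ^ a * (8 * 2 ^ a) := by
        refine Nat.mul_le_mul h3 (le_of_eq ?_)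
        rw [pow_succ]; ring
      rw [hX]
      exact_mod_cast h4
    exact mul_le_mul_of_nonneg_right h2 (by positivity)
  refine (add_le_add hp1 hp2).trans ?_
  have g1 : X ^ (-(c1 / 2)) = X ^ (-(c1 / 4)) * X ^ (-(c1 / 4)) := by
    rw [← Real.rpow_add hX0]; congr 1; ring
  have g2 : 0 < X ^ (-(c1 / 4)) := by positivity
  have g3 : X ^ (-(4 : ℝ)) = X⁻¹ * X⁻¹ * X⁻¹ * X⁻¹ := by
    rw [Real.rpow_neg hX0.le, show (4 : ℝ) = ((4 : ℕ) : ℝ) by norm_num, Real.rpow_natCast]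
    field_simp
  have g4 : X⁻¹ ≤ X ^ (-(c1 / 4)) := by
    rw [← Real.rpow_neg_one]
    exact Real.rpow_le_rpow_of_exponent_le hX1 (by linarith)
  have g5 : 2 * X * (8 * X) * (2 * ((a + 2 : ℕ) : ℝ) ^ W * (2 ^ k * X ^ (-(4 : ℝ)))) =
      (2 ^ 7 * 2 ^ k * (((a + 2 : ℕ) : ℝ) ^ W / 2 ^ (a + 2))) * X⁻¹ := by
    rw [g3, show (2 : ℝ) ^ (a + 2) = 4 * X by rw [hX, pow_add]; ring]
    field_simp
    norm_num
  have g6 : 2 ^ 7 * 2 ^ k * (((a + 2 : ℕ) : ℝ) ^ W / 2 ^ (a + 2)) ≤ 1 / 2 := by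
    have h1 := (lt_div_iff₀ (show (0 : ℝ) < 2 ^ 8 * 2 ^ k by positivity)).1 f3
    nlinarith
  rw [g1, g5]
  have g7 : (2 ^ 7 * 2 ^ k * (((a + 2 : ℕ) : ℝ) ^ W / 2 ^ (a + 2))) * X⁻¹ ≤ 1 / 2 * X ^ (-(c1 / 4)) := by
    have : 0 ≤ 2 ^ 7 * 2 ^ k * (((a + 2 : ℕ) : ℝ) ^ W / 2 ^ (a + 2)) := by positivity
    gcongr
  have g8 : 2 * (X ^ (-(c1 / 4)) * X ^ (-(c1 / 4))) ≤ 1 / 2 * X ^ (-(c1 / 4)) := by nlinarith
  linarith

end Pool.Agent.Helper51.EA
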