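import Pool.Agent.Helper51.EA.Defs

/-! Project EA, block E7. -/

set_option autoImplicit false

namespace Pool.Agent.Helper51.EA

open Finset Pool.Agent.Helper5.RM

/-- one block -/
theorem vb_le_step (N y y' : ℕ) (h : y ≤ y') :
    ((Icc 1 N).filter (fun n => Squarefree n ∧ ∀ q ∈ n.primeFactors, q ≤ y)).card +
      ∑ p ∈ Pb y y', (MG N (Sy N y) p).card ≤
      ((Icc 1 N).filter (fun n => Squarefree n ∧ ∀ q ∈ n.primeFactors, q ≤ y')).card := by
  classical
  have e1 : ∑ p ∈ Pb y y', (MG N (Sy N y) p).card =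
      ((Pb y y').biUnion fun p => (MG N (Sy N y) p).image (fun m => p * m)).card := by
    rw [Finset.card_biUnion]
    · refine Finset.sum_congr rfl fun p hp => ?_
      have hp0 : 0 < p := (Finset.mem_filter.1 hp).2.pos
      rw [Finset.card_image_of_injective _ (fun a b hab => Nat.eq_of_mul_eq_mul_left hp0 hab)]
    · intro p hp p' hp' hne
      rw [Function.onFun, Finset.disjoint_left]
      intro n hn hn'
      obtain ⟨m, hm, rfl⟩ := Finset.mem_image.1 hn
      obtain ⟨m', hm', he⟩ := Finset.mem_image.1 hn'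
      have pp : p.Prime := (Finset.mem_filter.1 hp).2
      have pp' : p'.Prime := (Finset.mem_filter.1 hp').2
      have h1 : p ∣ p' * m' := he ▸ Dvd.intro _ rfl
      rcases (Nat.Prime.dvd_mul pp).1 h1 with h2 | h2
      · exact hne ((Nat.prime_dvd_prime_iff_eq pp pp').1 h2)
      · have hm'2 := (Finset.mem_filter.1 hm').2.1
        have hm'3 := (Finset.mem_filter.1 hm'2)
        have hm0 : m' ≠ 0 := by have := (Finset.mem_Icc.1 hm'3.1).1; omega
        have h3 := hm'3.2 p (Nat.mem_primeFactors.2 ⟨pp, h2, hm0⟩)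
        have h4 := (Finset.mem_Ioc.1 (Finset.mem_filter.1 hp).1).1
        omega
  rw [e1, ← Finset.card_union_of_disjoint]
  · refine Finset.card_le_card fun n hn => ?_
    rcases Finset.mem_union.1 hn with hn | hn
    · obtain ⟨h1, h2, h3⟩ := Finset.mem_filter.1 hn
      exact Finset.mem_filter.2 ⟨h1, h2, fun q hq => (h3 q hq).trans h⟩
    · obtain ⟨p, hp, hn⟩ := Finset.mem_biUnion.1 hn
      obtain ⟨m, hm, rfl⟩ := Finset.mem_image.1 hn
      have pp : p.Prime := (Finset.mem_filter.1 hp).2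
      have hp1 := Finset.mem_Ioc.1 (Finset.mem_filter.1 hp).1
      obtain ⟨h1, h2, h3, h4⟩ := Finset.mem_filter.1 hm
      have h5 := Finset.mem_filter.1 h2
      have h1' := Finset.mem_Icc.1 h1
      have hm0 : m ≠ 0 := by omega
      have hpm : ¬ p ∣ m := fun hd => by
        have := h5.2 p (Nat.mem_primeFactors.2 ⟨pp, hd, hm0⟩)
        omega
      refine Finset.mem_filter.2 ⟨Finset.mem_Icc.2 ⟨Nat.mul_pos pp.pos (by omega), ?_⟩, ?_, ?_⟩
      · calc p * m ≤ p * (N / p) := Nat.mul_le_mul_left _ h1'.2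
          _ ≤ N := Nat.mul_div_le N p
      · exact (Nat.squarefree_mul ((Nat.Prime.coprime_iff_not_dvd pp).2 hpm)).2 ⟨pp.squarefree, h3⟩
      · intro q hq
        rw [Nat.primeFactors_mul pp.ne_zero hm0, Finset.mem_union, pp.primeFactors, Finset.mem_singleton] at hq
        rcases hq with rfl | hq
        · exact hp1.2
        · exact (h5.2 q hq).trans h
  · rw [Finset.disjoint_left]
    intro n hn hn'
    obtain ⟨p, hp, hn'⟩ := Finset.mem_biUnion.1 hn'
    obtain ⟨m, hm, rfl⟩ := Finset.mem_image.1 hn'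
    have pp : p.Prime := (Finset.mem_filter.1 hp).2
    have hp1 := Finset.mem_Ioc.1 (Finset.mem_filter.1 hp).1
    obtain ⟨h1, h2, h3⟩ := Finset.mem_filter.1 hn
    have h4 := h3 p (Nat.mem_primeFactors.2 ⟨pp, Dvd.intro _ rfl, by
      have := (Finset.mem_Icc.1 h1).1
      omega⟩)
    omega

/-- E7. Sum of the variances up to a boundary. -/
theorem vb_le (N : ℕ) (y : ℕ → ℕ) (hy : Monotone y) (B : ℕ) :
    ∑ b ∈ range B, 2 * vb N y b ≤
      (((Icc 1 N).filter (fun n => Squarefree n ∧ ∀ q ∈ n.primeFactors, q ≤ y B)).card : ℝ) := by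
  induction B with
  | zero => simp
  | succ B ih =>
    rw [Finset.sum_range_succ]
    have h1 := vb_le_step N (y B) (y (B + 1)) (hy (Nat.le_succ B))
    have h2 : (((Icc 1 N).filter (fun n => Squarefree n ∧ ∀ q ∈ n.primeFactors, q ≤ y B)).card : ℝ) +
      ∑ p ∈ Pb (y B) (y (B + 1)), ((MG N (Sy N (y B)) p).card : ℝ) ≤
      (((Icc 1 N).filter (fun n => Squarefree n ∧ ∀ q ∈ n.primeFactors, q ≤ y (B + 1))).card : ℝ) := by
      exact_mod_cast h1
    have h3 : 2 * vb N y B = ∑ p ∈ Pb (y B) (y (B + 1)), ((MG N (Sy N (y B)) p).card : ℝ) := by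
      rw [vb]; ring
    rw [h3]
    linarith

end Pool.Agent.Helper51.EA
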