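import Pool.Agent.Helper84.EA.Mert
import Pool.Agent.Helper1.EA.B6

/-! Project EA, block E6. -/

set_option autoImplicit false

namespace Pool.Agent.Helper51.EA

open Finset Pool.Agent.Helper5.RM
open scoped Chebyshev

/-- Abel summation against a linear bound -/
theorem abel_le (c : ℝ) (a b : ℕ → ℝ) (hb : Antitone b) (hA : ∀ n : ℕ, ∑ i ∈ range n, a i ≤ c * n) (n : ℕ) :
    ∑ i ∈ range (n + 1), a i * b i ≤
      c * ∑ i ∈ range (n + 1), b i - (c * (n + 1 : ℕ) - ∑ i ∈ range (n + 1), a i) * b n := by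
  induction n with
  | zero => simp; apply le_of_eq; ring
  | succ n ih =>
    rw [Finset.sum_range_succ (fun i => a i * b i), Finset.sum_range_succ b, Finset.sum_range_succ a (n + 1)]
    have h1 := hb (Nat.le_succ n)
    have h2 := hA (n + 1)
    have h3 : 0 ≤ (c * (n + 1 : ℕ) - ∑ i ∈ range (n + 1), a i) * (b n - b (n + 1)) :=
      mul_nonneg (by linarith) (by linarith)
    push_cast at h3 ih ⊢
    nlinarith

theorem sum_inv_sqrt (n : ℕ) : ∑ i ∈ range n, 1 / Real.sqrt ((i : ℝ) + 1) ≤ 2 * Real.sqrt n := by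
  induction n with
  | zero => simp
  | succ n ih =>
    rw [Finset.sum_range_succ]
    have h0 : (0 : ℝ) ≤ n := Nat.cast_nonneg n
    have h1 : 0 < Real.sqrt ((n : ℝ) + 1) := Real.sqrt_pos.2 (by positivity)
    have h2 : Real.sqrt (n : ℝ) ≤ Real.sqrt ((n : ℝ) + 1) := Real.sqrt_le_sqrt (by linarith)
    have h3 : Real.sqrt ((n : ℝ) + 1) ^ 2 = n + 1 := Real.sq_sqrt (by positivity)
    have h4 : Real.sqrt (n : ℝ) ^ 2 = n := Real.sq_sqrt h0
    have h5 : 0 ≤ Real.sqrt (n : ℝ) := Real.sqrt_nonneg _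
    have h6 : 1 / Real.sqrt ((n : ℝ) + 1) ≤ 2 * (Real.sqrt ((n : ℝ) + 1) - Real.sqrt n) := by
      rw [div_le_iff₀ h1]
      nlinarith
    push_cast
    linarith

theorem theta_range (n : ℕ) : ∑ i ∈ range n, (if (i + 1).Prime then Real.log ((i : ℝ) + 1) else 0) ≤ Real.log 4 * n := by
  have h1 := Chebyshev.theta_le_log4_mul_x (x := (n : ℝ)) (Nat.cast_nonneg n)
  rw [Chebyshev.theta_eq_sum_Icc] at h1
  refine le_trans (le_of_eq ?_) h1
  rw [Nat.floor_natCast, Finset.sum_filter, ← Nat.range_succ_eq_Icc_zero,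
    Finset.sum_range_succ' (fun a => if Nat.Prime a then Real.log ((a : ℕ) : ℝ) else 0) n]
  simp

/-- `∑ log p / √p` -/
theorem sum_log_sqrt (n : ℕ) : ∑ p ∈ PP n, Real.log p / Real.sqrt p ≤ 2 * Real.log 4 * Real.sqrt n := by
  have e1 : ∑ p ∈ PP n, Real.log p / Real.sqrt p =
      ∑ i ∈ range n, (if (i + 1).Prime then Real.log ((i : ℝ) + 1) else 0) * (1 / Real.sqrt ((i : ℝ) + 1)) := by
    rw [PP, Finset.sum_filter]
    have h1 : Icc 1 n = (range n).image (fun i => i + 1) := by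
      ext i
      simp only [Finset.mem_Icc, Finset.mem_image, Finset.mem_range]
      constructor
      · rintro ⟨h1, h2⟩
        exact ⟨i - 1, by omega, by omega⟩
      · rintro ⟨j, h1, rfl⟩
        omega
    rw [h1, Finset.sum_image (fun a _ b _ h => by simpa using h)]
    refine Finset.sum_congr rfl fun i _ => ?_
    by_cases hp : (i + 1).Prime
    · rw [if_pos hp, if_pos hp]
      push_cast
      ring
    · rw [if_neg hp, if_neg hp, zero_mul]
  rw [e1]
  rcases n with _ | n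
  · simp
  have h1 := abel_le (Real.log 4) (fun i : ℕ => if (i + 1).Prime then Real.log ((i : ℝ) + 1) else 0)
    (fun i : ℕ => 1 / Real.sqrt ((i : ℝ) + 1))
    (fun i j hij => by
      have : (i : ℝ) ≤ j := by exact_mod_cast hij
      have h0 : (0 : ℝ) ≤ i := Nat.cast_nonneg i
      exact one_div_le_one_div_of_le (Real.sqrt_pos.2 (by positivity)) (Real.sqrt_le_sqrt (by linarith)))
    theta_range n
  have h2 := theta_range (n + 1)
  have h3 := sum_inv_sqrt (n + 1)
  have h4 : 0 ≤ Real.log 4 := Real.log_nonneg (by norm_num)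
  have h5 : 0 ≤ (Real.log 4 * (n + 1 : ℕ) - ∑ i ∈ range (n + 1), (if (i + 1).Prime then Real.log ((i : ℝ) + 1) else 0)) *
      (1 / Real.sqrt ((n : ℝ) + 1)) := mul_nonneg (by linarith) (by positivity)
  have h6 : Real.log 4 * ∑ i ∈ range (n + 1), 1 / Real.sqrt ((i : ℝ) + 1) ≤ Real.log 4 * (2 * Real.sqrt (n + 1 : ℕ)) :=
    mul_le_mul_of_nonneg_left h3 h4
  linarith

/-- `∑_{n ≤ N} log (N / n) ≤ N` -/
theorem sum_log_div (N : ℕ) : ∑ n ∈ Icc 1 N, Real.log ((N : ℝ) / n) ≤ N := by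
  rcases Nat.eq_zero_or_pos N with rfl | hN
  · simp
  have hN0 : (0 : ℝ) < N := by exact_mod_cast hN
  have h1 : ∀ M : ℕ, M * Real.log M - M ≤ ∑ n ∈ Icc 1 M, Real.log n := by
    intro M
    induction M with
    | zero => simp
    | succ M ih =>
      rw [Finset.sum_Icc_succ_top (by omega)]
      rcases Nat.eq_zero_or_pos M with rfl | hM
      · simp
      have hM0 : (0 : ℝ) < M := by exact_mod_cast hM
      have h2 : Real.log ((M + 1 : ℕ) : ℝ) - Real.log M ≤ 1 / M := by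
        rw [← Real.log_div (by positivity) (by positivity)]
        have : Real.log (((M + 1 : ℕ) : ℝ) / M) ≤ ((M + 1 : ℕ) : ℝ) / M - 1 := Real.log_le_sub_one_of_pos (by positivity)
        have e : ((M + 1 : ℕ) : ℝ) / M - 1 = 1 / M := by push_cast; field_simp; ring
        linarith
      have h3 : M * (Real.log ((M + 1 : ℕ) : ℝ) - Real.log M) ≤ 1 := by
        have := mul_le_mul_of_nonneg_left h2 hM0.le
        rwa [mul_one_div_cancel hM0.ne'] at this
      push_cast at h3 ih ⊢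
      linarith
  have e1 : ∑ n ∈ Icc 1 N, Real.log ((N : ℝ) / n) = N * Real.log N - ∑ n ∈ Icc 1 N, Real.log n := by
    have : ∀ n ∈ Icc 1 N, Real.log ((N : ℝ) / n) = Real.log N - Real.log n := fun n hn => by
      have : (0 : ℝ) < n := by exact_mod_cast (Finset.mem_Icc.1 hn).1
      rw [Real.log_div hN0.ne' this.ne']
    rw [Finset.sum_congr rfl this, Finset.sum_sub_distrib]
    simp
  rw [e1]
  linarith [h1 N]

/-- E6 from B6. -/
theorem smooth_le_of (hq : ∃ C : ℝ, 0 < C ∧ ∀ y : ℕ, |(Pool.Agent.Helper11.RL.Qf y : ℝ) - 6 / Real.pi ^ 2 * y| ≤ C * Real.sqrt y) :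
    ∃ C : ℝ, 0 < C ∧ ∀ N y : ℕ, 2 ≤ N → 1 ≤ y → y ≤ N →
    ((((Icc 1 N).filter (fun n => Squarefree n ∧ ∀ q ∈ n.primeFactors, q ≤ y)).card : ℕ) : ℝ) ≤
      6 / Real.pi ^ 2 * N * (Real.log y / Real.log N) + C * N / Real.log N := by
  obtain ⟨C1, hC1, hM⟩ := mert1
  obtain ⟨C2, hC2, hQ⟩ := hq
  have hl4 : 0 ≤ Real.log 4 := Real.log_nonneg (by norm_num)
  have hpi : 0 < 6 / Real.pi ^ 2 := by positivity
  refine ⟨1 + 6 / Real.pi ^ 2 * C1 + C2 * (2 * Real.log 4), by positivity, fun N y hN hy hyN => ?_⟩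
  have hN0 : (0 : ℝ) < N := by exact_mod_cast (by omega : 0 < N)
  have hN1 : (1 : ℝ) < N := by exact_mod_cast (by omega : 1 < N)
  have hL : 0 < Real.log N := Real.log_pos hN1
  set S := (Icc 1 N).filter (fun n => Squarefree n ∧ ∀ q ∈ n.primeFactors, q ≤ y) with hS
  have h1 : (S.card : ℝ) * Real.log N = ∑ n ∈ S, Real.log n + ∑ n ∈ S, Real.log ((N : ℝ) / n) := by
    rw [← Finset.sum_add_distrib, ← nsmul_eq_mul, ← Finset.sum_const]
    refine Finset.sum_congr rfl fun n hn => ?_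
    have : (0 : ℝ) < n := by exact_mod_cast (Finset.mem_Icc.1 (Finset.mem_filter.1 hn).1).1
    rw [Real.log_div hN0.ne' this.ne']
    ring
  have h2 : ∑ n ∈ S, Real.log ((N : ℝ) / n) ≤ N := by
    refine le_trans (Finset.sum_le_sum_of_subset_of_nonneg (Finset.filter_subset _ _) fun n hn _ => ?_) (sum_log_div N)
    have h3 := Finset.mem_Icc.1 hn
    have h4 : (0 : ℝ) < n := by exact_mod_cast h3.1
    have h5 : (n : ℝ) ≤ N := by exact_mod_cast h3.2
    exact Real.log_nonneg ((one_le_div h4).2 h5)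
  have h3 : ∑ n ∈ S, Real.log n = ∑ p ∈ PP y, Real.log p * ((S.filter (fun n => p ∣ n)).card : ℝ) := by
    have e1 : ∀ n ∈ S, Real.log n = ∑ p ∈ PP y, if p ∣ n then Real.log p else 0 := by
      intro n hn
      obtain ⟨hn1, hn2, hn3⟩ := Finset.mem_filter.1 hn
      have hn0 : n ≠ 0 := by have := (Finset.mem_Icc.1 hn1).1; omega
      rw [← Finset.sum_filter]
      have e2 : (PP y).filter (fun p => p ∣ n) = n.primeFactors := by
        ext p
        simp only [PP, Finset.mem_filter, Finset.mem_Icc, Nat.mem_primeFactors]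
        constructor
        · rintro ⟨⟨_, h2⟩, h3⟩
          exact ⟨h2, h3, hn0⟩
        · rintro ⟨h1, h2, _⟩
          exact ⟨⟨⟨h1.one_lt.le, hn3 p (Nat.mem_primeFactors.2 ⟨h1, h2, hn0⟩)⟩, h1⟩, h2⟩
      rw [e2]
      conv_lhs => rw [← Nat.prod_primeFactors_of_squarefree hn2]
      push_cast
      rw [Real.log_prod (fun p hp => by
        have := (Nat.mem_primeFactors.1 hp).1.pos
        positivity)]
    rw [Finset.sum_congr rfl e1, Finset.sum_comm]
    refine Finset.sum_congr rfl fun p _ => ?_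
    rw [← Finset.sum_filter, Finset.sum_const, nsmul_eq_mul]
    ring
  have h4 : ∀ p ∈ PP y, ((S.filter (fun n => p ∣ n)).card : ℝ) ≤ 6 / Real.pi ^ 2 * (N / p) + C2 * Real.sqrt ((N : ℝ) / p) := by
    intro p hp
    obtain ⟨hp1, hp2⟩ := Finset.mem_filter.1 hp
    have hp0 : (0 : ℝ) < p := by exact_mod_cast hp2.pos
    have h5 : (S.filter (fun n => p ∣ n)).card ≤ Pool.Agent.Helper11.RL.Qf (N / p) := by
      rw [Pool.Agent.Helper11.RL.Qf]
      have h6 : S.filter (fun n => p ∣ n) ⊆ ((Icc 1 (N / p)).filter Squarefree).image (fun m => p * m) := by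
        intro n hn
        obtain ⟨hn1, hn2⟩ := Finset.mem_filter.1 hn
        obtain ⟨hn3, hn4, _⟩ := Finset.mem_filter.1 hn1
        obtain ⟨m, rfl⟩ := hn2
        have hn5 := Finset.mem_Icc.1 hn3
        refine Finset.mem_image.2 ⟨m, Finset.mem_filter.2 ⟨Finset.mem_Icc.2 ⟨?_, ?_⟩, ?_⟩, rfl⟩
        · rcases Nat.eq_zero_or_pos m with rfl | h
          · simp at hn5
          · exact h
        · exact (Nat.le_div_iff_mul_le hp2.pos).2 (by rw [mul_comm]; exact hn5.2)
        · exact hn4.of_mul_right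
      exact (Finset.card_le_card h6).trans Finset.card_image_le
    have h6 := (abs_le.1 (hQ (N / p))).2
    have h7 : ((N / p : ℕ) : ℝ) ≤ (N : ℝ) / p := Nat.cast_div_le
    have h8 : Real.sqrt ((N / p : ℕ) : ℝ) ≤ Real.sqrt ((N : ℝ) / p) := Real.sqrt_le_sqrt h7
    have h9 : ((S.filter (fun n => p ∣ n)).card : ℝ) ≤ (Pool.Agent.Helper11.RL.Qf (N / p) : ℝ) := by exact_mod_cast h5
    have h10 : 6 / Real.pi ^ 2 * ((N / p : ℕ) : ℝ) ≤ 6 / Real.pi ^ 2 * ((N : ℝ) / p) := mul_le_mul_of_nonneg_left h7 hpi.le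
    have h11 : C2 * Real.sqrt ((N / p : ℕ) : ℝ) ≤ C2 * Real.sqrt ((N : ℝ) / p) := mul_le_mul_of_nonneg_left h8 hC2.le
    linarith
  have h5 : ∑ n ∈ S, Real.log n ≤ 6 / Real.pi ^ 2 * N * (Real.log y + C1) + C2 * N * (2 * Real.log 4) := by
    rw [h3]
    have h6 : ∑ p ∈ PP y, Real.log p * ((S.filter (fun n => p ∣ n)).card : ℝ) ≤
        ∑ p ∈ PP y, (6 / Real.pi ^ 2 * N * (Real.log p / p) + C2 * Real.sqrt N * (Real.log p / Real.sqrt p)) := by
      refine Finset.sum_le_sum fun p hp => ?_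
      obtain ⟨hp1, hp2⟩ := Finset.mem_filter.1 hp
      have hp0 : (0 : ℝ) < p := by exact_mod_cast hp2.pos
      have h7 : 0 ≤ Real.log p := Real.log_natCast_nonneg p
      have h8 := mul_le_mul_of_nonneg_left (h4 p hp) h7
      refine h8.trans (le_of_eq ?_)
      rw [Real.sqrt_div hN0.le]
      ring
    refine h6.trans ?_
    rw [Finset.sum_add_distrib, ← Finset.mul_sum, ← Finset.mul_sum]
    have h7 := (abs_le.1 (hM y hy)).2
    have h8 := sum_log_sqrt y
    have h9 : 6 / Real.pi ^ 2 * N * ∑ p ∈ PP y, Real.log p / p ≤ 6 / Real.pi ^ 2 * N * (Real.log y + C1) :=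
      mul_le_mul_of_nonneg_left (by linarith) (by positivity)
    have h10 : Real.sqrt y ≤ Real.sqrt N := Real.sqrt_le_sqrt (by exact_mod_cast hyN)
    have h11 : ∑ p ∈ PP y, Real.log p / Real.sqrt p ≤ 2 * Real.log 4 * Real.sqrt N :=
      h8.trans (mul_le_mul_of_nonneg_left h10 (by positivity))
    have h12 : C2 * Real.sqrt N * ∑ p ∈ PP y, Real.log p / Real.sqrt p ≤ C2 * Real.sqrt N * (2 * Real.log 4 * Real.sqrt N) :=
      mul_le_mul_of_nonneg_left h11 (by positivity)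
    have h13 : Real.sqrt N * Real.sqrt N = N := Real.mul_self_sqrt hN0.le
    have h14 : C2 * Real.sqrt N * (2 * Real.log 4 * Real.sqrt N) = C2 * N * (2 * Real.log 4) := by
      rw [show C2 * Real.sqrt N * (2 * Real.log 4 * Real.sqrt N) = C2 * (2 * Real.log 4) * (Real.sqrt N * Real.sqrt N) by ring, h13]
      ring
    linarith
  have h6 : 6 / Real.pi ^ 2 * N * (Real.log y / Real.log N) + (1 + 6 / Real.pi ^ 2 * C1 + C2 * (2 * Real.log 4)) * N / Real.log N =
      (6 / Real.pi ^ 2 * N * (Real.log y + C1) + C2 * N * (2 * Real.log 4) + N) / Real.log N := by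
    field_simp
    ring
  rw [h6, le_div_iff₀ hL]
  linarith

/-- E6. -/
theorem smooth_le : ∃ C : ℝ, 0 < C ∧ ∀ N y : ℕ, 2 ≤ N → 1 ≤ y → y ≤ N →
    ((((Icc 1 N).filter (fun n => Squarefree n ∧ ∀ q ∈ n.primeFactors, q ≤ y)).card : ℕ) : ℝ) ≤
      6 / Real.pi ^ 2 * N * (Real.log y / Real.log N) + C * N / Real.log N :=
  smooth_le_of sqf_count

end Pool.Agent.Helper51.EA
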