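import Pool.Agent.Helper84.EA.LowR
import Pool.Agent.Helper11.EA3.Defs3

/-!
# Project EA, part 3, block V10: many good grid points in every window, for all `N` in a dyadic block
-/

set_option autoImplicit false

namespace Pool.Agent.Helper51.EA

open Finset Pool.Agent.Helper5.RM Pool.Agent.Helper5.RS Filter Topology

/-- some window of `M` has too few good grid points -/
def BdA (κ δ : ℝ) (z : ℂ) (M : ℕ) (T : Finset ℕ) : Prop :=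
  ∃ j0 : ℕ, j0 + mw M κ ≤ 4 * M ∧ (cw M (mw M κ) j0 (fun x => ‖SN M T x - z * (tg M : ℂ)‖ ≤ δ * tg M) : ℝ) <
      (M : ℝ) ^ (1 - κ - ‖z‖ ^ 2 - δ)

theorem BdA_restrict {κ δ : ℝ} {z : ℂ} {N M : ℕ} (h : M ≤ N) :
    pr (PP N) (BdA κ δ z M) = pr (PP M) (BdA κ δ z M) := by
  have hsub : PP M ⊆ PP N := by
    intro p hp
    unfold PP at hp ⊢
    rw [Finset.mem_filter, Finset.mem_Icc] at hp ⊢
    exact ⟨⟨hp.1.1, hp.1.2.trans h⟩, hp.2⟩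
  refine pr_restrict hsub _ fun T _ => ?_
  unfold BdA
  simp only [SN_inter]

theorem cw_mono {N m j0 : ℕ} {P Q : ℝ → Prop} (h : ∀ j, j0 ≤ j → j < j0 + m → P ((j : ℝ) / (4 * N : ℕ)) → Q ((j : ℝ) / (4 * N : ℕ))) :
    cw N m j0 P ≤ cw N m j0 Q := by
  classical
  unfold cw
  refine card_le_card fun j hj => ?_
  rw [mem_filter, mem_Ico] at hj ⊢
  exact ⟨hj.1, h j hj.1.1 hj.1.2 hj.2⟩

theorem tg_mono {N M : ℕ} (h : M ≤ N) : tg M ≤ tg N := by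
  rcases Nat.eq_zero_or_pos M with rfl | hM
  · unfold tg
    simp
  unfold tg
  refine Real.sqrt_le_sqrt ?_
  have h1 : (M : ℝ) ≤ N := by exact_mod_cast h
  have h2 : (1 : ℝ) ≤ M := by exact_mod_cast hM
  have h3 : Real.log M ≤ Real.log N := Real.log_le_log (by linarith) h1
  have h4 : 0 ≤ Real.log M := Real.log_nonneg h2
  gcongr

theorem pow_compare' {X N M d δ E : ℝ} (hE : E ≤ 1) (hX1 : 1 ≤ X) (hNr : X ≤ N) (hM1 : 1 ≤ M) (hM2 : N ≤ 2 * M) (hMN' : M ≤ N)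
    (hd0 : 0 < d) (hdδ : d ≤ δ) (f6 : X ^ (-(d / 2)) ≤ 1 / 2) : N ^ (E - δ) ≤ M ^ (E - d / 4) := by
  have hX0 : 0 < X := by linarith
  have hN0' : 0 < N := by linarith
  have hN1r : 1 ≤ N := by linarith
  have hM0 : 0 < M := by linarith
  have g1 : N ^ (E - δ) ≤ N ^ (E - d / 4) * N ^ (-(d / 2)) := by
    rw [← Real.rpow_add hN0']
    refine Real.rpow_le_rpow_of_exponent_le hN1r ?_
    linarith
  have g2 : N ^ (-(d / 2)) ≤ 1 / 2 :=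
    le_trans (Real.rpow_le_rpow_of_nonpos hX0 hNr (by linarith)) f6
  have g3 : 1 / 2 * N ^ (E - d / 4) ≤ M ^ (E - d / 4) := by
    rcases le_total 0 (E - d / 4) with h0 | h0
    · have g4 : N ^ (E - d / 4) ≤ (2 * M) ^ (E - d / 4) := Real.rpow_le_rpow hN0'.le hM2 h0
      rw [Real.mul_rpow (by norm_num) hM0.le] at g4
      have g5 : (2 : ℝ) ^ (E - d / 4) ≤ 2 := by
        calc (2 : ℝ) ^ (E - d / 4) ≤ 2 ^ (1 : ℝ) :=
              Real.rpow_le_rpow_of_exponent_le (by norm_num) (by linarith)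
          _ = 2 := Real.rpow_one 2
      have g6 : 0 < M ^ (E - d / 4) := Real.rpow_pos_of_pos hM0 _
      nlinarith
    · have g4 : N ^ (E - d / 4) ≤ M ^ (E - d / 4) := Real.rpow_le_rpow_of_nonpos hM0 hMN' h0
      have g5 : 0 < N ^ (E - d / 4) := Real.rpow_pos_of_pos hN0' _
      linarith
  have g7 : 0 < N ^ (E - d / 4) := Real.rpow_pos_of_pos hN0' _
  nlinarith

/-- V10 from V9. -/
theorem arc_block_of (hone : ∀ (κ δ : ℝ) (z : ℂ) (_ : 0 ≤ κ) (_ : 0 < δ) (_ : ‖z‖ ^ 2 < 1 - κ),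
    ∃ (c : ℝ) (N0 : ℕ), 0 < c ∧ ∀ N : ℕ, N0 ≤ N →
    pr (PP N) (fun T => ∃ j0 : ℕ, j0 + mw N κ ≤ 4 * N ∧ (cw N (mw N κ) j0 (fun x => ‖SN N T x - z * (tg N : ℂ)‖ ≤ δ * tg N) : ℝ) <
      (N : ℝ) ^ (1 - κ - ‖z‖ ^ 2 - δ)) ≤ (N : ℝ) ^ (-c))
    (κ δ : ℝ) (z : ℂ) (hκ0 : 0 ≤ κ) (hδ : 0 < δ) (hz : ‖z‖ ^ 2 < 1 - κ) : ∃ (c : ℝ) (a0 : ℕ), 0 < c ∧ ∀ A : ℕ, a0 ≤ A →
    pr (PP (2 ^ (A + 1))) (fun T => ∃ N : ℕ, 2 ^ A ≤ N ∧ N ≤ 2 ^ (A + 1) ∧ ∀ N1 : ℕ, 2 ^ A ≤ N1 → N1 ≤ N →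
      ∃ j0 : ℕ, j0 + mw N1 κ ≤ 4 * N1 ∧ (cw N1 (mw N1 κ) j0 (fun x => ‖SN N T x - z * (tg N : ℂ)‖ ≤ δ * tg N) : ℝ) <
        (N : ℝ) ^ (1 - κ - ‖z‖ ^ 2 - δ)) ≤ ((2 : ℝ) ^ A) ^ (-c) := by
  classical
  have htg0 : ∀ N, 0 ≤ tg N := fun N => Real.sqrt_nonneg _
  set d := min δ (1 / 2) with hd
  have hd0 : 0 < d := lt_min hδ (by norm_num)
  have hd1 : d ≤ 1 / 2 := min_le_right _ _
  have hdδ : d ≤ δ := min_le_left _ _
  obtain ⟨c, N0, hc, hN0⟩ := hone κ (d / 4) z hκ0 (by positivity) hz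
  have hz1 : ‖z‖ ≤ 1 := by nlinarith [norm_nonneg z]
  set c1 := min c 1 with hc1
  have hc10 : 0 < c1 := lt_min hc one_pos
  have hc11 : c1 ≤ 1 := min_le_right _ _
  obtain ⟨k, hk4, hk⟩ : ∃ k : ℕ, 4 ≤ k ∧ 4 ≤ c1 / 2 * ((k - 1 : ℕ) : ℝ) := by
    refine ⟨⌈8 / c1⌉₊ + 4, by omega, ?_⟩
    have h1 := Nat.le_ceil (8 / c1)
    have h2 : ((⌈8 / c1⌉₊ + 4 - 1 : ℕ) : ℝ) = ⌈8 / c1⌉₊ + 3 := by
      rw [show ⌈8 / c1⌉₊ + 4 - 1 = ⌈8 / c1⌉₊ + 3 by omega]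
      push_cast; ring
    rw [h2]
    have h3 : c1 / 2 * (8 / c1) = 4 := by field_simp; norm_num
    have h4 : c1 / 2 * (8 / c1) ≤ c1 / 2 * (⌈8 / c1⌉₊ + 3) := by
      apply mul_le_mul_of_nonneg_left _ (by positivity)
      linarith
    linarith
  set W := (2 * k - 1) ^ k with hW
  have hz : Tendsto (fun A : ℕ => ((2 : ℝ) ^ A) ^ (-(c1 / 4))) atTop (𝓝 0) :=
    (tendsto_rpow_neg_atTop (by positivity)).comp (tendsto_pow_atTop_atTop_of_one_lt (by norm_num))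
  have hz2 : Tendsto (fun A : ℕ => ((2 : ℝ) ^ A) ^ (-(c1 / 2))) atTop (𝓝 0) :=
    (tendsto_rpow_neg_atTop (by positivity)).comp (tendsto_pow_atTop_atTop_of_one_lt (by norm_num))
  have hz3 : Tendsto (fun A : ℕ => ((2 : ℝ) ^ A) ^ (-(d / 2))) atTop (𝓝 0) :=
    (tendsto_rpow_neg_atTop (by positivity)).comp (tendsto_pow_atTop_atTop_of_one_lt (by norm_num))
  have hw : Tendsto (fun A : ℕ => ((A + 2 : ℕ) : ℝ) ^ W / 2 ^ (A + 2)) atTop (𝓝 0) :=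
    (tendsto_pow_const_div_const_pow_of_one_lt W (by norm_num : (1 : ℝ) < 2)).comp (tendsto_add_atTop_nat 2)
  have hsq : Tendsto (fun A : ℕ => Real.sqrt (1 / 4 * (A : ℝ))) atTop atTop :=
    Real.tendsto_sqrt_atTop.comp (Tendsto.const_mul_atTop (by norm_num) tendsto_natCast_atTop_atTop)
  have e1 := hz.eventually (gt_mem_nhds (show (0 : ℝ) < 1 / 4 by norm_num))
  have e2 := hz2.eventually (gt_mem_nhds (show (0 : ℝ) < d / 8 by positivity))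
  have e3 := hw.eventually (gt_mem_nhds (show (0 : ℝ) < 1 / (2 ^ 8 * 2 ^ k) by positivity))
  have e4 := hsq.eventually (eventually_ge_atTop (24 / d))
  have e5 := hz3.eventually (gt_mem_nhds (show (0 : ℝ) < 1 / 2 by norm_num))
  obtain ⟨a0, ha0⟩ :=
    (e1.and (e2.and (e3.and (e4.and (e5.and (eventually_ge_atTop (N0 + 3))))))).exists_forall_of_atTop
  refine ⟨c1 / 4, a0, by positivity, fun A hA => ?_⟩
  obtain ⟨f1, f2, f3, f4, f6, f5⟩ := ha0 A hA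
  set X : ℝ := (2 : ℝ) ^ A with hX
  have hX0 : 0 < X := by positivity
  have hX1 : 1 ≤ X := one_le_pow₀ (by norm_num)
  set t := ⌊c1 / 2 * A⌋₊ with ht
  have ha0' : (0 : ℝ) ≤ A := Nat.cast_nonneg A
  have ht1 : (t : ℝ) ≤ c1 / 2 * A := Nat.floor_le (by positivity)
  have ht2 : c1 / 2 * A < t + 1 := Nat.lt_floor_add_one _
  have hta : t ≤ A := by
    have : (t : ℝ) ≤ A := by nlinarith
    exact_mod_cast this
  have h2t1 : (2 : ℝ) ^ t ≤ X ^ (c1 / 2) := by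
    rw [hX, ← Real.rpow_natCast, ← Real.rpow_natCast, ← Real.rpow_mul (by norm_num)]
    refine Real.rpow_le_rpow_of_exponent_le (by norm_num) ?_
    linarith
  have h2t2 : X ^ (c1 / 2) ≤ 2 * 2 ^ t := by
    have : (2 : ℝ) * 2 ^ t = 2 ^ ((t : ℝ) + 1) := by
      rw [Real.rpow_add_one (by norm_num), Real.rpow_natCast]; ring
    rw [this, hX, ← Real.rpow_natCast 2 A, ← Real.rpow_mul (by norm_num)]
    refine Real.rpow_le_rpow_of_exponent_le (by norm_num) ?_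
    linarith
  set s0 := A - t with hs0
  have hs0a : s0 + t = A := by omega
  have h2s : (2 : ℝ) ^ s0 * 2 ^ t = X := by rw [hX, ← pow_add, hs0a]
  have hinv : (2 : ℝ) ^ s0 / X ≤ 2 * X ^ (-(c1 / 2)) := by
    rw [div_le_iff₀ hX0, Real.rpow_neg hX0.le, ← h2s]
    rw [h2s]
    have h3 : 0 < X ^ (c1 / 2) := by positivity
    have h4 : 2 ^ s0 * X ^ (c1 / 2) ≤ 2 * X := by
      calc 2 ^ s0 * X ^ (c1 / 2) ≤ 2 ^ s0 * (2 * 2 ^ t) := by gcongr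
        _ = 2 * X := by rw [← h2s]; ring
    calc (2 : ℝ) ^ s0 = 2 ^ s0 * X ^ (c1 / 2) * (X ^ (c1 / 2))⁻¹ := by field_simp
      _ ≤ 2 * X * (X ^ (c1 / 2))⁻¹ := by gcongr
      _ = _ := by ring
  -- the event
  have key : pr (PP (2 ^ (A + 1))) (fun T => ∃ N : ℕ, 2 ^ A ≤ N ∧ N ≤ 2 ^ (A + 1) ∧ ∀ N1 : ℕ, 2 ^ A ≤ N1 → N1 ≤ N →
      ∃ j0 : ℕ, j0 + mw N1 κ ≤ 4 * N1 ∧ (cw N1 (mw N1 κ) j0 (fun x => ‖SN N T x - z * (tg N : ℂ)‖ ≤ δ * tg N) : ℝ) <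
        (N : ℝ) ^ (1 - κ - ‖z‖ ^ 2 - δ)) ≤
      pr (PP (2 ^ (A + 1))) (fun T => ∃ m ∈ Icc (2 ^ t) (2 ^ (t + 1)), BdA κ (d / 4) z (2 ^ s0 * m) T) +
      pr (PP (2 ^ (A + 1))) (fun T => ∃ q ∈ Icc (2 ^ t) (2 ^ (t + 1)) ×ˢ range (4 * 2 ^ (A + 1)),
        Ch A s0 ((q.2 : ℝ) / (4 * (2 ^ s0 * q.1) : ℕ)) T) := by
    refine pr_le_add fun T _ hT => ?_
    obtain ⟨N, hN1, hN2, hN3⟩ := hT
    by_contra hcon
    rw [not_or, not_exists, not_exists] at hcon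
    obtain ⟨hc2, hc3⟩ := hcon
    have hm1 : 2 ^ t ≤ N / 2 ^ s0 := by
      rw [Nat.le_div_iff_mul_le (by positivity), ← pow_add, add_comm t s0, hs0a]
      exact hN1
    have hm2 : N / 2 ^ s0 ≤ 2 ^ (t + 1) := by
      have : N / 2 ^ s0 ≤ 2 ^ (A + 1) / 2 ^ s0 := Nat.div_le_div_right hN2
      refine this.trans (le_of_eq ?_)
      rw [Nat.pow_div (by omega) (by norm_num)]
      congr 1
      omega
    set m := N / 2 ^ s0 with hm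
    have hmI : m ∈ Icc (2 ^ t) (2 ^ (t + 1)) := Finset.mem_Icc.2 ⟨hm1, hm2⟩
    have hc4 : ¬ BdA κ (d / 4) z (2 ^ s0 * m) T := fun h => hc2 m ⟨hmI, h⟩
    unfold BdA at hc4
    have hM1 : 2 ^ A ≤ 2 ^ s0 * m := by
      calc 2 ^ A = 2 ^ s0 * 2 ^ t := by rw [← pow_add, hs0a]
        _ ≤ 2 ^ s0 * m := Nat.mul_le_mul_left _ hm1
    have hMN : 2 ^ s0 * m ≤ N := Nat.mul_div_le N (2 ^ s0)
    have hM3 : 3 ≤ 2 ^ s0 * m := by
      have : 2 ^ 3 ≤ 2 ^ A := Nat.pow_le_pow_right (by norm_num) (by omega)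
      omega
    have hNM : (N : ℝ) ≤ (1 + d / 4) * (2 ^ s0 * m : ℕ) := by
      have h3 : N < 2 ^ s0 * m + 2 ^ s0 := by
        have := Nat.div_add_mod N (2 ^ s0)
        have h4 := Nat.mod_lt N (show 0 < 2 ^ s0 by positivity)
        rw [← hm] at this
        omega
      have h4 : (N : ℝ) < (2 ^ s0 * m : ℕ) + 2 ^ s0 := by exact_mod_cast h3
      have h5 : (X : ℝ) ≤ (2 ^ s0 * m : ℕ) := by rw [hX]; exact_mod_cast hM1
      have h6 : (2 : ℝ) ^ s0 ≤ d / 4 * X := by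
        have := (div_le_iff₀ hX0).1 hinv
        have h7 : 2 * X ^ (-(c1 / 2)) ≤ d / 4 := by linarith
        nlinarith
      nlinarith
    have hN1' : 1 ≤ N := le_trans (Nat.one_le_two_pow) hN1
    have h3 := Pool.Agent.Helper84.EA.tg_mono_mul (η := d / 4) (by positivity) hM3 hNM hN1'
    have h4 := Pool.Agent.Helper84.EA.tg_ge hM1
    have h9 := htg0 (2 ^ s0 * m)
    have h5 : 6 * Real.sqrt (2 ^ A) ≤ d / 4 * tg (2 ^ s0 * m) := by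
      have h6 : 24 / d * Real.sqrt (2 ^ A) ≤ tg (2 ^ s0 * m) := by
        refine le_trans ?_ h4
        gcongr
      calc 6 * Real.sqrt (2 ^ A) = d / 4 * (24 / d * Real.sqrt (2 ^ A)) := by field_simp; norm_num
        _ ≤ _ := by gcongr
    have htm : tg (2 ^ s0 * m) ≤ tg N := tg_mono hMN
    obtain ⟨j0, hj0, hj1⟩ := hN3 (2 ^ s0 * m) hM1 hMN
    apply hc4
    refine ⟨j0, hj0, ?_⟩
    -- the good points of `N1` are good points of `N`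
    have h10 : cw (2 ^ s0 * m) (mw (2 ^ s0 * m) κ) j0
        (fun x => ‖SN (2 ^ s0 * m) T x - z * (tg (2 ^ s0 * m) : ℂ)‖ ≤ d / 4 * tg (2 ^ s0 * m)) ≤
        cw (2 ^ s0 * m) (mw (2 ^ s0 * m) κ) j0 (fun x => ‖SN N T x - z * (tg N : ℂ)‖ ≤ δ * tg N) := by
      refine cw_mono fun j hja hjb hP => ?_
      have hj : j < 4 * (2 ^ s0 * m) := lt_of_lt_of_le hjb hj0
      have hj3 : j < 4 * 2 ^ (A + 1) := by
        refine hj.trans_le (Nat.mul_le_mul_left 4 ?_)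
        calc 2 ^ s0 * m ≤ 2 ^ s0 * 2 ^ (t + 1) := Nat.mul_le_mul_left _ hm2
          _ = 2 ^ (A + 1) := by rw [← pow_add]; congr 1; omega
      set x := (j : ℝ) / (4 * (2 ^ s0 * m) : ℕ) with hx
      have h1 : ‖SN N T x - SN (2 ^ s0 * m) T x‖ ≤ 6 * Real.sqrt (2 ^ A) := by
        by_contra hcon2
        push Not at hcon2
        exact hc3 (m, j) ⟨Finset.mem_product.2 ⟨hmI, Finset.mem_range.2 hj3⟩, N, hN1, hN2, hcon2⟩
      have h2 : ‖SN N T x - z * (tg N : ℂ)‖ ≤ ‖SN N T x - SN (2 ^ s0 * m) T x‖ +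
          ‖SN (2 ^ s0 * m) T x - z * (tg (2 ^ s0 * m) : ℂ)‖ + ‖z * ((tg (2 ^ s0 * m) : ℂ) - (tg N : ℂ))‖ := by
        have e : SN N T x - z * (tg N : ℂ) = (SN N T x - SN (2 ^ s0 * m) T x) +
            (SN (2 ^ s0 * m) T x - z * (tg (2 ^ s0 * m) : ℂ)) + z * ((tg (2 ^ s0 * m) : ℂ) - (tg N : ℂ)) := by ring
        rw [e]
        exact norm_add₃_le
      have h6 : ‖z * ((tg (2 ^ s0 * m) : ℂ) - (tg N : ℂ))‖ ≤ d / 4 * tg (2 ^ s0 * m) := by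
        rw [norm_mul, ← Complex.ofReal_sub, Complex.norm_real, Real.norm_eq_abs, abs_of_nonpos (by linarith)]
        have h7 : -(tg (2 ^ s0 * m) - tg N) ≤ d / 4 * tg (2 ^ s0 * m) := by linarith
        have h8 : 0 ≤ -(tg (2 ^ s0 * m) - tg N) := by linarith
        calc ‖z‖ * -(tg (2 ^ s0 * m) - tg N) ≤ 1 * -(tg (2 ^ s0 * m) - tg N) := by gcongr
          _ ≤ d / 4 * tg (2 ^ s0 * m) := by linarith
      have h7 : 0 ≤ d * tg (2 ^ s0 * m) := by positivity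
      have h8 : d * tg (2 ^ s0 * m) ≤ δ * tg N := mul_le_mul hdδ htm h9 hδ.le
      have h9' : ‖SN (2 ^ s0 * m) T x - z * (tg (2 ^ s0 * m) : ℂ)‖ ≤ d / 4 * tg (2 ^ s0 * m) := hP
      show ‖SN N T x - z * (tg N : ℂ)‖ ≤ δ * tg N
      linarith
    have h12 : ((cw (2 ^ s0 * m) (mw (2 ^ s0 * m) κ) j0
        (fun x => ‖SN (2 ^ s0 * m) T x - z * (tg (2 ^ s0 * m) : ℂ)‖ ≤ d / 4 * tg (2 ^ s0 * m)) : ℕ) : ℝ) ≤
        ((cw (2 ^ s0 * m) (mw (2 ^ s0 * m) κ) j0 (fun x => ‖SN N T x - z * (tg N : ℂ)‖ ≤ δ * tg N) : ℕ) : ℝ) := by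
      exact_mod_cast h10
    have h13 : (N : ℝ) ^ (1 - κ - ‖z‖ ^ 2 - δ) ≤ ((2 ^ s0 * m : ℕ) : ℝ) ^ (1 - κ - ‖z‖ ^ 2 - d / 4) := by
      have hNr : (X : ℝ) ≤ N := by rw [hX]; exact_mod_cast hN1
      have hM0 : (1 : ℝ) ≤ ((2 ^ s0 * m : ℕ) : ℝ) := by exact_mod_cast (by omega : 1 ≤ 2 ^ s0 * m)
      have hMN' : ((2 ^ s0 * m : ℕ) : ℝ) ≤ N := by exact_mod_cast hMN
      exact pow_compare' (by nlinarith [norm_nonneg z]) hX1 hNr hM0 (by nlinarith) hMN' hd0 hdδ f6.le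
    linarith
  refine key.trans ?_
  -- first part
  have hp1 : pr (PP (2 ^ (A + 1))) (fun T => ∃ m ∈ Icc (2 ^ t) (2 ^ (t + 1)), BdA κ (d / 4) z (2 ^ s0 * m) T) ≤
      2 * X ^ (-(c1 / 2)) := by
    refine (pr_exists (PP (2 ^ (A + 1))) (Icc (2 ^ t) (2 ^ (t + 1)))
      (fun (m : ℕ) T => BdA κ (d / 4) z (2 ^ s0 * m) T)).trans ?_
    have h1 : ∀ m ∈ Icc (2 ^ t) (2 ^ (t + 1)), pr (PP (2 ^ (A + 1))) (fun T => BdA κ (d / 4) z (2 ^ s0 * m) T) ≤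
        X ^ (-c1) := by
      intro m hm
      obtain ⟨hm1, hm2⟩ := Finset.mem_Icc.1 hm
      have hM1 : 2 ^ A ≤ 2 ^ s0 * m := by
        calc 2 ^ A = 2 ^ s0 * 2 ^ t := by rw [← pow_add, hs0a]
          _ ≤ 2 ^ s0 * m := Nat.mul_le_mul_left _ hm1
      have hM2 : 2 ^ s0 * m ≤ 2 ^ (A + 1) := by
        calc 2 ^ s0 * m ≤ 2 ^ s0 * 2 ^ (t + 1) := Nat.mul_le_mul_left _ hm2
          _ = 2 ^ (A + 1) := by rw [← pow_add]; congr 1; omega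
      rw [show (fun T => BdA κ (d / 4) z (2 ^ s0 * m) T) = BdA κ (d / 4) z (2 ^ s0 * m) from rfl, BdA_restrict hM2]
      have hN0a : N0 ≤ 2 ^ s0 * m := by
        have : A < 2 ^ A := Nat.lt_two_pow_self
        omega
      refine (hN0 (2 ^ s0 * m) hN0a).trans ?_
      have h5 : X ≤ ((2 ^ s0 * m : ℕ) : ℝ) := by rw [hX]; exact_mod_cast hM1
      have h6 : (((2 ^ s0 * m : ℕ) : ℝ)) ^ (-c) ≤ ((2 ^ s0 * m : ℕ) : ℝ) ^ (-c1) :=
        Real.rpow_le_rpow_of_exponent_le (hX1.trans h5) (by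
          have := min_le_left c 1
          linarith)
      exact h6.trans (Real.rpow_le_rpow_of_nonpos hX0 h5 (by linarith))
    refine (Finset.sum_le_sum h1).trans ?_
    rw [Finset.sum_const, nsmul_eq_mul, Nat.card_Icc]
    have h2 : ((2 ^ (t + 1) + 1 - 2 ^ t : ℕ) : ℝ) ≤ 2 * 2 ^ t := by
      have h3 : 2 ^ (t + 1) + 1 - 2 ^ t ≤ 2 * 2 ^ t := by
        have : 1 ≤ 2 ^ t := Nat.one_le_two_pow
        rw [pow_succ]
        omega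
      exact_mod_cast h3
    calc ((2 ^ (t + 1) + 1 - 2 ^ t : ℕ) : ℝ) * X ^ (-c1) ≤ (2 * X ^ (c1 / 2)) * X ^ (-c1) := by
          gcongr
          linarith
      _ = 2 * X ^ (-(c1 / 2)) := by
          rw [mul_assoc, ← Real.rpow_add hX0]
          congr 2
          ring
  have hp2 : pr (PP (2 ^ (A + 1))) (fun T => ∃ q ∈ Icc (2 ^ t) (2 ^ (t + 1)) ×ˢ range (4 * 2 ^ (A + 1)),
        Ch A s0 ((q.2 : ℝ) / (4 * (2 ^ s0 * q.1) : ℕ)) T) ≤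
      2 * X * (8 * X) * (2 * ((A + 2 : ℕ) : ℝ) ^ W * (2 ^ k * X ^ (-(4 : ℝ)))) := by
    refine (pr_exists (PP (2 ^ (A + 1))) (Icc (2 ^ t) (2 ^ (t + 1)) ×ˢ range (4 * 2 ^ (A + 1)))
      (fun (q : ℕ × ℕ) T => Ch A s0 ((q.2 : ℝ) / (4 * (2 ^ s0 * q.1) : ℕ)) T)).trans ?_
    have h1 : ∀ q ∈ Icc (2 ^ t) (2 ^ (t + 1)) ×ˢ range (4 * 2 ^ (A + 1)), pr (PP (2 ^ (A + 1)))
        (fun T => Ch A s0 ((q.2 : ℝ) / (4 * (2 ^ s0 * q.1) : ℕ)) T) ≤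
        2 * ((A + 2 : ℕ) : ℝ) ^ W * (2 ^ k * X ^ (-(4 : ℝ))) := by
      intro q _
      refine (Ch_le k W A s0 _ hk4 (le_of_eq hW.symm) (by omega)).trans ?_
      have h2 : LL (2 ^ (A + 1)) ≤ ((A + 2 : ℕ) : ℝ) := by
        unfold LL
        push_cast
        rw [Real.log_pow]
        have := Real.log_two_lt_d9
        push_cast
        nlinarith
      have h3 : 0 ≤ LL (2 ^ (A + 1)) := by
        unfold LL
        have := Real.log_natCast_nonneg (2 ^ (A + 1))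
        linarith
      have h4 : ((2 : ℝ) ^ s0 / 2 ^ A) ^ (k - 1) ≤ 2 ^ k * X ^ (-(4 : ℝ)) := by
        have h5 : ((2 : ℝ) ^ s0 / 2 ^ A) ^ (k - 1) ≤ (2 * X ^ (-(c1 / 2))) ^ (k - 1) :=
          pow_le_pow_left₀ (by positivity) hinv _
        refine h5.trans ?_
        rw [mul_pow, ← Real.rpow_natCast (X ^ (-(c1 / 2))), ← Real.rpow_mul hX0.le]
        have h6 : X ^ (-(c1 / 2) * ((k - 1 : ℕ) : ℝ)) ≤ X ^ (-(4 : ℝ)) :=
          Real.rpow_le_rpow_of_exponent_le hX1 (by linarith)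
        have h7 : (2 : ℝ) ^ (k - 1) ≤ 2 ^ k := pow_le_pow_right₀ (by norm_num) (by omega)
        gcongr
      gcongr
    refine (Finset.sum_le_sum h1).trans ?_
    rw [Finset.sum_const, nsmul_eq_mul, Finset.card_product, Nat.card_Icc, Finset.card_range]
    have h2 : (((2 ^ (t + 1) + 1 - 2 ^ t) * (4 * 2 ^ (A + 1)) : ℕ) : ℝ) ≤ 2 * X * (8 * X) := by
      have h3 : 2 ^ (t + 1) + 1 - 2 ^ t ≤ 2 * 2 ^ A := by
        have h4 : 1 ≤ 2 ^ t := Nat.one_le_two_pow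
        have h5 : 2 ^ t ≤ 2 ^ A := Nat.pow_le_pow_right (by norm_num) hta
        rw [pow_succ]
        omega
      have h4 : (2 ^ (t + 1) + 1 - 2 ^ t) * (4 * 2 ^ (A + 1)) ≤ 2 * 2 ^ A * (8 * 2 ^ A) := by
        refine Nat.mul_le_mul h3 (le_of_eq ?_)
        rw [pow_succ]; ring
      rw [hX]
      exact_mod_cast h4
    exact mul_le_mul_of_nonneg_right h2 (by positivity)
  refine (add_le_add hp1 hp2).trans ?_
  have g1 : X ^ (-(c1 / 2)) = X ^ (-(c1 / 4)) * X ^ (-(c1 / 4)) := by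
    rw [← Real.rpow_add hX0]; congr 1; ring
  have g2 : 0 < X ^ (-(c1 / 4)) := by positivity
  have g3 : X ^ (-(4 : ℝ)) = X⁻¹ * X⁻¹ * X⁻¹ * X⁻¹ := by
    rw [Real.rpow_neg hX0.le, show (4 : ℝ) = ((4 : ℕ) : ℝ) by norm_num, Real.rpow_natCast]
    field_simp
  have g4 : X⁻¹ ≤ X ^ (-(c1 / 4)) := by
    rw [← Real.rpow_neg_one]
    exact Real.rpow_le_rpow_of_exponent_le hX1 (by linarith)
  have g5 : 2 * X * (8 * X) * (2 * ((A + 2 : ℕ) : ℝ) ^ W * (2 ^ k * X ^ (-(4 : ℝ)))) =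
      (2 ^ 7 * 2 ^ k * (((A + 2 : ℕ) : ℝ) ^ W / 2 ^ (A + 2))) * X⁻¹ := by
    rw [g3, show (2 : ℝ) ^ (A + 2) = 4 * X by rw [hX, pow_add]; ring]
    field_simp
    norm_num
  have g6 : 2 ^ 7 * 2 ^ k * (((A + 2 : ℕ) : ℝ) ^ W / 2 ^ (A + 2)) ≤ 1 / 2 := by
    have h1 := (lt_div_iff₀ (show (0 : ℝ) < 2 ^ 8 * 2 ^ k by positivity)).1 f3
    nlinarith
  rw [g1, g5]
  have g7 : (2 ^ 7 * 2 ^ k * (((A + 2 : ℕ) : ℝ) ^ W / 2 ^ (A + 2))) * X⁻¹ ≤ 1 / 2 * X ^ (-(c1 / 4)) := by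
    have : 0 ≤ 2 ^ 7 * 2 ^ k * (((A + 2 : ℕ) : ℝ) ^ W / 2 ^ (A + 2)) := by positivity
    gcongr
  have g8 : 2 * (X ^ (-(c1 / 4)) * X ^ (-(c1 / 4))) ≤ 1 / 2 * X ^ (-(c1 / 4)) := by nlinarith
  linarith

end Pool.Agent.Helper51.EA
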